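import Mathlib
import Pool.Agent.Y272.LC.Stm2

set_option autoImplicit false

/-!
# INN: a neighbourhood of the landing point of the ray of angle `0` is enclosed
-/

open Complex Filter Topology Metric Set MeasureTheory

namespace Pool.Agent.Y961.LC

open Pool.Agent.H712R2 Pool.Agent.H713R2 Pool.Agent.H713R2.AR Pool.Agent.W677.Mar Pool.Agent.Y272.TY
open Pool.Agent.Y272.LC

theorem zt_re (s t : ℝ) : (zt s t).re = s := by
  simp [zt]

theorem zt_im (s t : ℝ) : (zt s t).im = 2 * Real.pi * t := by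
  simp [zt]

theorem continuous_zt : Continuous (fun q : ℝ × ℝ => zt q.1 q.2) := by
  unfold zt
  fun_prop

/-- the curve of a ray avoids a point in a neighbourhood -/
theorem tube {c0 w : ℂ} {ε l : ℝ} {T : ℂ → ℝ → ℂ} (hε : 0 < ε)
    (hT : ContinuousOn (fun q : ℂ × ℝ => T q.1 q.2) (ball c0 ε ×ˢ Ici 0))
    (h : ∀ s ∈ Icc 0 l, T c0 s ≠ w) :
    ∀ᶠ q : ℂ × ℂ in 𝓝 (c0, w), ∀ s ∈ Icc 0 l, T q.1 s ≠ q.2 := by
  have h1 : ∀ᶠ q : ℂ × ℂ in 𝓝 (c0, w), ∀ s ∈ Icc (0 : ℝ) l, T q.1 (max s 0) ≠ q.2 := by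
    refine isCompact_Icc.eventually_forall_of_forall_eventually
      (P := fun (q : ℂ × ℂ) (s : ℝ) => T q.1 (max s 0) ≠ q.2) ?_
    intro s hs
    have h2 : ContinuousWithinAt (fun q : ℂ × ℝ => T q.1 q.2) (ball c0 ε ×ˢ Ici 0) (c0, max s 0) :=
      hT _ ⟨mem_ball_self hε, mem_Ici.2 (le_max_right _ _)⟩
    have hcont : Continuous (fun y : (ℂ × ℂ) × ℝ => (y.1.1, max y.2 0)) := by fun_prop
    have h3 : Tendsto (fun y : (ℂ × ℂ) × ℝ => (y.1.1, max y.2 0)) (𝓝 ((c0, w), s))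
        (𝓝[ball c0 ε ×ˢ Ici 0] (c0, max s 0)) := by
      rw [tendsto_nhdsWithin_iff]
      refine ⟨hcont.tendsto _, ?_⟩
      have h4 : ∀ᶠ y : (ℂ × ℂ) × ℝ in 𝓝 ((c0, w), s), y.1.1 ∈ ball c0 ε := by
        have : Continuous (fun y : (ℂ × ℂ) × ℝ => y.1.1) := by fun_prop
        exact this.tendsto _ (ball_mem_nhds c0 hε)
      filter_upwards [h4] with y hy
      exact ⟨hy, mem_Ici.2 (le_max_right _ _)⟩
    have h5 : Tendsto (fun y : (ℂ × ℂ) × ℝ => T y.1.1 (max y.2 0)) (𝓝 ((c0, w), s))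
        (𝓝 (T c0 (max s 0))) := h2.tendsto.comp h3
    have h6 : Tendsto (fun y : (ℂ × ℂ) × ℝ => T y.1.1 (max y.2 0) - y.1.2) (𝓝 ((c0, w), s))
        (𝓝 (T c0 (max s 0) - w)) := by
      refine h5.sub ?_
      have : Continuous (fun y : (ℂ × ℂ) × ℝ => y.1.2) := by fun_prop
      exact this.tendsto _
    have h7 : T c0 (max s 0) - w ≠ 0 := by
      rw [max_eq_left hs.1]
      exact sub_ne_zero.2 (h s hs)
    filter_upwards [h6.eventually_ne h7] with y hy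
    exact sub_ne_zero.1 hy
  filter_upwards [h1] with q hq s hs
  have := hq s hs
  rwa [max_eq_left hs.1] at this

theorem continuous_green0 {d : ℕ} (hgc : Continuous (fun q : ℂ × ℂ => green d q.1 q.2)) :
    Continuous (fun q : ℂ × ℂ => green d q.1 0) := by
  have h0 : Continuous (fun q : ℂ × ℂ => (q.1, (0 : ℂ))) := by fun_prop
  exact Continuous.comp (g := fun q : ℂ × ℂ => green d q.1 q.2)
    (f := fun q : ℂ × ℂ => (q.1, (0 : ℂ))) hgc h0

/-- the cap avoids a point in a neighbourhood -/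
theorem tubeC {d : ℕ} {Φ : ℂ → ℂ → ℂ} (hgc : Continuous (fun q : ℂ × ℂ => green d q.1 q.2))
    (hB : IsBott d Φ) {c0 w : ℂ} {l a b : ℝ} (hg : green d c0 0 < l)
    (h : ∀ t ∈ Icc a b, Φ c0 (zt l t) ≠ w) :
    ∀ᶠ q : ℂ × ℂ in 𝓝 (c0, w), ∀ t ∈ Icc a b, Φ q.1 (zt l t) ≠ q.2 := by
  refine isCompact_Icc.eventually_forall_of_forall_eventually
      (P := fun (q : ℂ × ℂ) (t : ℝ) => Φ q.1 (zt l t) ≠ q.2) ?_
  intro t ht
  have hopen : IsOpen {q : ℂ × ℂ | green d q.1 0 < q.2.re} := by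
    have h1 : Continuous (fun q : ℂ × ℂ => green d q.1 0) := continuous_green0 hgc
    exact isOpen_lt h1 (by fun_prop)
  have hmem : (c0, zt l t) ∈ {q : ℂ × ℂ | green d q.1 0 < q.2.re} := by
    simp only [mem_ofPred_eq, zt_re]
    exact hg
  have h2 : ContinuousAt (fun q : ℂ × ℂ => Φ q.1 q.2) (c0, zt l t) :=
    hB.cont.continuousAt (hopen.mem_nhds hmem)
  have hcont : Continuous (fun y : (ℂ × ℂ) × ℝ => (y.1.1, zt l y.2)) := by
    have h3 : Continuous (fun y : (ℂ × ℂ) × ℝ => zt l y.2) := by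
      unfold zt
      fun_prop
    exact (by fun_prop : Continuous (fun y : (ℂ × ℂ) × ℝ => y.1.1)).prodMk h3
  have h5 : Tendsto (fun y : (ℂ × ℂ) × ℝ => Φ y.1.1 (zt l y.2)) (𝓝 ((c0, w), t))
      (𝓝 (Φ c0 (zt l t))) := h2.tendsto.comp (hcont.tendsto ((c0, w), t))
  have h6 : Tendsto (fun y : (ℂ × ℂ) × ℝ => Φ y.1.1 (zt l y.2) - y.1.2) (𝓝 ((c0, w), t))
      (𝓝 (Φ c0 (zt l t) - w)) := by
    refine h5.sub ?_
    have : Continuous (fun y : (ℂ × ℂ) × ℝ => y.1.2) := by fun_prop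
    exact this.tendsto _
  filter_upwards [h6.eventually_ne (sub_ne_zero.2 (h t ht))] with y hy
  exact sub_ne_zero.1 hy

/-- periodicity -/
theorem per_int {d : ℕ} {Φ : ℂ → ℂ → ℂ} (hB : IsBott d Φ) {c : ℂ} {s : ℝ} (hs : green d c 0 < s)
    (t : ℝ) (k : ℤ) : Φ c (zt s (t + k)) = Φ c (zt s t) := by
  have h1 : ∀ t : ℝ, Φ c (zt s (t + 1)) = Φ c (zt s t) := by
    intro t
    rw [← hB.per c (zt s t) (by rw [zt_re]; exact hs)]
    congr 1
    unfold zt
    push_cast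
    ring
  induction k using Int.induction_on with
  | zero => simp
  | succ n ih =>
    have e : t + (((n : ℤ) + 1 : ℤ) : ℝ) = (t + ((n : ℤ) : ℝ)) + 1 := by push_cast; ring
    rw [e, h1, ih]
  | pred n ih =>
    have e : t + ((-(n : ℤ) : ℤ) : ℝ) = (t + ((-(n : ℤ) - 1 : ℤ) : ℝ)) + 1 := by push_cast; ring
    rw [e, h1] at ih
    exact ih

/-- equality of points of rays -/
theorem eq_int {d : ℕ} {Φ : ℂ → ℂ → ℂ} (hB : IsBott d Φ) {c : ℂ} {s s' t t' : ℝ}
    (hs : green d c 0 < s) (hs' : green d c 0 < s') (h : Φ c (zt s t) = Φ c (zt s' t')) :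
    s = s' ∧ ∃ k : ℤ, t = t' + k := by
  obtain ⟨k, hk⟩ := hB.inj c _ _ (by rw [zt_re]; exact hs) (by rw [zt_re]; exact hs') h
  constructor
  · have h1 := congrArg Complex.re hk
    simpa [zt_re] using h1
  · refine ⟨k, ?_⟩
    have h1 := congrArg Complex.im hk
    rw [add_im, zt_im, zt_im] at h1
    have h2 : ((k : ℂ) * (((2 * Real.pi : ℝ) : ℂ) * I)).im = 2 * Real.pi * k := by
      have e : (k : ℂ) * (((2 * Real.pi : ℝ) : ℂ) * I) = (((k : ℝ) * (2 * Real.pi) : ℝ) : ℂ) * I := by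
        push_cast; ring
      rw [e]
      simp
      ring
    rw [h2] at h1
    have hpi := Real.pi_pos
    have h3 : 2 * Real.pi * t = 2 * Real.pi * (t' + k) := by linarith
    exact mul_left_cancel₀ (by positivity) h3

theorem t (hG : St_Grn) (hF : St_Far) (hH : St_Hom) (hE : St_Enc) : St_Inn := by
  intro d Φ hd hB c0 ε l a b T0 T1 B hε hc0 hl ha hb hab r0 r1 rB hcol hne
  obtain ⟨hgc, -, -, -⟩ := hG d hd
  set β0 := B c0 0 with hβ0
  have hcc : c0 ∈ ball c0 ε := mem_ball_self hε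
  have hgβ : green d c0 β0 = 0 := rB.grn c0 hcc 0 le_rfl
  have hlt : ∀ c : ℂ, green d c 0 < l → (zt l 0).re = l := fun c _ => zt_re _ _
  -- the loop avoids `β0`
  have a0 : ∀ s ∈ Icc 0 l, T0 c0 s ≠ β0 := by
    intro s hs h
    have h1 := r0.grn c0 hcc s hs.1
    rw [h, hgβ] at h1
    rw [← h1] at h
    exact hne h.symm
  have a1 : ∀ s ∈ Icc 0 l, T1 c0 s ≠ β0 := by
    intro s hs h
    have h1 := r1.grn c0 hcc s hs.1
    rw [h, hgβ] at h1
    rw [← h1, ← hcol c0 hcc] at h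
    exact hne h.symm
  have a2 : ∀ t ∈ Icc a b, Φ c0 (zt l t) ≠ β0 := by
    intro t ht h
    have h1 := hB.grn c0 (zt l t) (by rw [zt_re, hc0]; exact hl)
    rw [h, hgβ, zt_re] at h1
    linarith
  have e0 := tube hε r0.cont a0
  have e1 := tube hε r1.cont a1
  have e2 := tubeC hgc hB (by rw [hc0]; exact hl) a2
  have e3 : ∀ᶠ q : ℂ × ℂ in 𝓝 (c0, β0), green d q.1 0 < l := by
    have h1 : Continuous (fun q : ℂ × ℂ => green d q.1 0) := continuous_green0 hgc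
    exact h1.continuousAt.eventually_lt continuousAt_const (by simp only [hc0]; exact hl)
  obtain ⟨ρ, hρ, hρs⟩ := Metric.eventually_nhds_iff_ball.1 (e0.and (e1.and (e2.and e3)))
  have hall : ∀ c z : ℂ, c ∈ ball c0 ρ → z ∈ ball β0 ρ →
      (∀ s ∈ Icc 0 l, T0 c s ≠ z) ∧ (∀ s ∈ Icc 0 l, T1 c s ≠ z) ∧
      (∀ t ∈ Icc a b, Φ c (zt l t) ≠ z) ∧ green d c 0 < l := by
    intro c z hc hz
    have := hρs (c, z) (by rw [← ball_prod_same]; exact ⟨hc, hz⟩)
    exact this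
  have hβρ : β0 ∈ ball β0 ρ := mem_ball_self hρ
  -- a point of the ray of angle `0`
  obtain ⟨s0, hs00, hs0l, hs0⟩ : ∃ s0 : ℝ, 0 < s0 ∧ s0 < l ∧ B c0 s0 ∈ ball β0 ρ := by
    have h1 : ContinuousWithinAt (fun s : ℝ => B c0 s) (Ici 0) 0 := by
      have h2 : ContinuousOn (fun s : ℝ => B c0 s) (Ici 0) :=
        rB.cont.comp (f := fun s : ℝ => (c0, s)) (by fun_prop) (fun s hs => ⟨hcc, hs⟩)
      exact h2 0 self_mem_Ici
    have h3 : ∀ᶠ s in 𝓝[>] (0 : ℝ), B c0 s ∈ ball β0 ρ :=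
      (h1.tendsto.mono_left (nhdsWithin_mono _ Ioi_subset_Ici_self)) (ball_mem_nhds _ hρ)
    have h4 : ∀ᶠ s in 𝓝[>] (0 : ℝ), s ∈ Ioo 0 l := Ioo_mem_nhdsGT hl
    obtain ⟨s, h5, h6⟩ := (h3.and h4).exists
    exact ⟨s, h6.1, h6.2, h5⟩
  have hz0 : B c0 s0 = Φ c0 (zt s0 0) := rB.eq c0 hcc s0 (by rw [hc0]; exact hs00)
  rw [hz0] at hs0
  have hT : ∀ {X : ℂ → ℝ → ℂ} {u : ℝ} (_ : Ray d Φ c0 ε u X) {c : ℂ} (_ : c ∈ ball c0 ε),
      ContinuousOn (X c) (Icc 0 l) := by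
    intro X u r c hc
    exact r.cont.comp (f := fun s : ℝ => (c, s)) (by fun_prop) (fun s hs => ⟨hc, hs.1⟩)
  have henc : ¬ HasLog (T0 c0) (T1 c0) (fun t => Φ c0 (zt l t)) l a b (Φ c0 (zt s0 0)) :=
    hE d Φ hd hB c0 (T0 c0) (T1 c0) l a b (by linarith) hab (hT r0 hcc) (hT r1 hcc)
      (hcol c0 hcc)
      (fun s _ hs => ⟨r0.eq c0 hcc s hs, r1.eq c0 hcc s hs⟩)
      (fun s hs => ⟨r0.grn c0 hcc s hs.1, r1.grn c0 hcc s hs.1⟩) s0 0
      (by rw [hc0]; exact hs00) hs0l ha hb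
  refine ⟨min ε ρ, ρ, lt_min hε hρ, min_le_left _ _, hρ, ?_⟩
  intro c hc z hz
  have hcε : c ∈ ball c0 ε := ball_subset_ball (min_le_left _ _) hc
  have hcρ : c ∈ ball c0 ρ := ball_subset_ball (min_le_right _ _) hc
  obtain ⟨b0, b1, b2, b3⟩ := hall c z hcρ hz
  -- the first clause
  have hnot : ¬ HasLog (T0 c) (T1 c) (fun t => Φ c (zt l t)) l a b z := by
    intro hlog
    set cτ : ℝ → ℂ := fun τ => c + (τ : ℂ) * (c0 - c) with hcτ
    set zτ : ℝ → ℂ := fun τ => z + (τ : ℂ) * (Φ c0 (zt s0 0) - z) with hzτ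
    have c00 : cτ 0 = c := by simp [hcτ]
    have c01 : cτ 1 = c0 := by simp [hcτ]
    have z00 : zτ 0 = z := by simp [hzτ]
    have z01 : zτ 1 = Φ c0 (zt s0 0) := by simp [hzτ]
    have hconv : ∀ {x y w : ℂ} {r τ : ℝ}, x ∈ ball w r → y ∈ ball w r → τ ∈ Icc (0 : ℝ) 1 →
        x + (τ : ℂ) * (y - x) ∈ ball w r := by
      intro x y w r τ hx hy hτ
      have h1 := (convex_ball w r) hx hy (by linarith [hτ.2] : (0 : ℝ) ≤ 1 - τ) hτ.1 (by ring)
      have e : (1 - τ) • x + τ • y = x + (τ : ℂ) * (y - x) := by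
        rw [Complex.real_smul, Complex.real_smul]
        push_cast
        ring
      rw [← e]
      exact h1
    have hcm : ∀ τ ∈ Icc (0 : ℝ) 1, cτ τ ∈ ball c0 (min ε ρ) := fun τ hτ =>
      hconv hc (mem_ball_self (lt_min hε hρ)) hτ
    have hcmε : ∀ τ ∈ Icc (0 : ℝ) 1, cτ τ ∈ ball c0 ε := fun τ hτ =>
      ball_subset_ball (min_le_left _ _) (hcm τ hτ)
    have hcmρ : ∀ τ ∈ Icc (0 : ℝ) 1, cτ τ ∈ ball c0 ρ := fun τ hτ =>
      ball_subset_ball (min_le_right _ _) (hcm τ hτ)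
    have hzm : ∀ τ ∈ Icc (0 : ℝ) 1, zτ τ ∈ ball β0 ρ := fun τ hτ => hconv hz hs0 hτ
    have hcτc : Continuous cτ := by rw [hcτ]; fun_prop
    have hzτc : Continuous zτ := by rw [hzτ]; fun_prop
    have hRc : ∀ {X : ℂ → ℝ → ℂ} {u : ℝ} (_ : Ray d Φ c0 ε u X),
        ContinuousOn (fun q : ℝ × ℝ => X (cτ q.1) q.2) (Icc 0 1 ×ˢ Icc 0 l) := by
      intro X u r
      refine r.cont.comp (f := fun q : ℝ × ℝ => (cτ q.1, q.2)) ?_ ?_
      · exact (by fun_prop : Continuous (fun q : ℝ × ℝ => (cτ q.1, q.2))).continuousOn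
      · intro q hq
        exact ⟨hcmε q.1 hq.1, hq.2.1⟩
    have hCc : ContinuousOn (fun q : ℝ × ℝ => Φ (cτ q.1) (zt l q.2)) (Icc 0 1 ×ˢ Icc a b) := by
      refine hB.cont.comp (f := fun q : ℝ × ℝ => (cτ q.1, zt l q.2)) ?_ ?_
      · have h1 : Continuous (fun q : ℝ × ℝ => zt l q.2) := by
          unfold zt
          fun_prop
        exact ((hcτc.comp continuous_fst).prodMk h1).continuousOn
      · intro q hq
        simp only [mem_ofPred_eq, zt_re]
        exact (hall _ β0 (hcmρ q.1 hq.1) hβρ).2.2.2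
    have h := hH (fun τ s => T0 (cτ τ) s) (fun τ s => T1 (cτ τ) s) (fun τ t => Φ (cτ τ) (zt l t))
      zτ l a b hl.le (by linarith) (hRc r0) (hRc r1) hCc hzτc.continuousOn
      (fun τ hτ => by
        have hgl := (hall _ β0 (hcmρ τ hτ) hβρ).2.2.2
        exact ⟨hcol _ (hcmε τ hτ), r0.eq _ (hcmε τ hτ) l hgl, r1.eq _ (hcmε τ hτ) l hgl⟩)
      (fun τ hτ s hs => by
        have h1 := hall _ _ (hcmρ τ hτ) (hzm τ hτ)
        exact ⟨h1.1 s hs, h1.2.1 s hs⟩)
      (fun τ hτ t ht => (hall _ _ (hcmρ τ hτ) (hzm τ hτ)).2.2.1 t ht)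
    simp only [c00, c01, z00, z01] at h
    exact henc (h hlog)
  refine ⟨hnot, fun s hs => ⟨b0 s hs, b1 s hs⟩, b2, ?_⟩
  -- the last clause
  intro s t hgs hzt
  by_contra hcon
  have hs0' : 0 < s := (green_nonneg hd c 0).trans_lt hgs
  -- no point of the ray above `z` is on the loop
  have hS : ∀ S : ℝ, s ≤ S → (∀ s' ∈ Icc 0 l, T0 c s' ≠ Φ c (zt S t)) ∧
      (∀ s' ∈ Icc 0 l, T1 c s' ≠ Φ c (zt S t)) ∧ ∀ t' ∈ Icc a b, Φ c (zt l t') ≠ Φ c (zt S t) := by
    intro S hSs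
    have hgS : green d c 0 < S := hgs.trans_le hSs
    have hgr : green d c (Φ c (zt S t)) = S := by
      rw [hB.grn c _ (by rw [zt_re]; exact hgS), zt_re]
    have key : ∀ {X : ℂ → ℝ → ℂ} {u : ℝ} (_ : Ray d Φ c0 ε u X), (∀ s ∈ Icc 0 l, X c s ≠ z) →
        ∀ s' ∈ Icc 0 l, X c s' ≠ Φ c (zt S t) := by
      intro X u r hX s' hs' h
      have h1 := r.grn c hcε s' hs'.1
      rw [h, hgr] at h1
      subst h1
      rw [r.eq c hcε S hgS] at h
      obtain ⟨-, k, hk⟩ := eq_int hB hgS hgS h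
      refine hX s ⟨hs0'.le, hSs.trans hs'.2⟩ ?_
      rw [r.eq c hcε s hgs, hk, per_int hB hgs, hzt]
    refine ⟨key r0 b0, key r1 b1, ?_⟩
    intro t' ht' h
    obtain ⟨h1, k, hk⟩ := eq_int hB b3 hgS h
    have hzt' : z = Φ c (zt s t') := by rw [hk, per_int hB hgs, hzt]
    have hsl : s ≤ l := by rw [h1]; exact hSs
    rcases eq_or_lt_of_le ht'.1 with h2 | h2
    · exact b0 s ⟨hs0'.le, hsl⟩ (by rw [r0.eq c hcε s hgs, h2, hzt'])
    rcases eq_or_lt_of_le ht'.2 with h3 | h3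
    · exact b1 s ⟨hs0'.le, hsl⟩ (by rw [r1.eq c hcε s hgs, ← h3, hzt'])
    rcases eq_or_lt_of_le hsl with h4 | h4
    · exact b2 t' ht' (by rw [hzt', h4])
    · refine hcon ⟨h4, -k, ?_, ?_⟩
      · push_cast; linarith
      · push_cast; linarith
  -- the loop is bounded
  have hC : ContinuousOn (fun t : ℝ => Φ c (zt l t)) (Icc a b) := by
    refine hB.cont.comp (f := fun t : ℝ => (c, zt l t)) ?_ ?_
    · have h1 : Continuous (fun t : ℝ => zt l t) := by
        unfold zt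
        fun_prop
      exact (continuous_const.prodMk h1).continuousOn
    · intro q hq
      simp only [mem_ofPred_eq, zt_re]
      exact b3
  obtain ⟨R0, hR0⟩ := isCompact_Icc.exists_bound_of_continuousOn (hT r0 hcε)
  obtain ⟨R1, hR1⟩ := isCompact_Icc.exists_bound_of_continuousOn (hT r1 hcε)
  obtain ⟨R2, hR2⟩ := isCompact_Icc.exists_bound_of_continuousOn hC
  set r := max R0 (max R1 R2) with hr
  obtain ⟨Mx, hMx⟩ := (isCompact_closedBall (0 : ℂ) r).exists_bound_of_continuousOn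
    (continuous_green hd c).continuousOn
  set M := |Mx| + |s| + 1 with hM
  have hM0 : 0 < M := by positivity
  have hfar : r < ‖Φ c (zt (s + M) t) - 0‖ := by
    rw [sub_zero]
    by_contra hle
    push Not at hle
    have h1 := hMx _ (mem_closedBall_zero_iff.2 hle)
    rw [hB.grn c _ (by rw [zt_re]; linarith), zt_re, Real.norm_eq_abs, abs_of_pos (by linarith)] at h1
    have := le_abs_self Mx
    have := neg_abs_le s
    linarith
  have hlog1 : HasLog (T0 c) (T1 c) (fun t => Φ c (zt l t)) l a b (Φ c (zt (s + M) t)) :=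
    hF (T0 c) (T1 c) (fun t => Φ c (zt l t)) l a b r _ 0 hl.le (by linarith) (hT r0 hcε)
      (hT r1 hcε) hC (hcol c hcε) (r0.eq c hcε l b3) (r1.eq c hcε l b3)
      (fun s hs => by
        rw [sub_zero]
        exact (hR0 s hs).trans (le_max_left _ _))
      (fun s hs => by
        rw [sub_zero]
        exact (hR1 s hs).trans ((le_max_left _ _).trans (le_max_right _ _)))
      (fun s hs => by
        rw [sub_zero]
        exact (hR2 s hs).trans ((le_max_right _ _).trans (le_max_right _ _)))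
      hfar
  have h := hH (fun _ s => T0 c s) (fun _ s => T1 c s) (fun _ t => Φ c (zt l t))
    (fun τ => Φ c (zt (s + (1 - τ) * M) t)) l a b hl.le (by linarith)
    ((hT r0 hcε).comp continuousOn_snd (fun q hq => hq.2))
    ((hT r1 hcε).comp continuousOn_snd (fun q hq => hq.2))
    (hC.comp continuousOn_snd (fun q hq => hq.2))
    (by
      refine hB.cont.comp (f := fun τ : ℝ => (c, zt (s + (1 - τ) * M) t)) ?_ ?_
      · have h1 : Continuous (fun τ : ℝ => zt (s + (1 - τ) * M) t) := by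
          unfold zt
          fun_prop
        exact (continuous_const.prodMk h1).continuousOn
      · intro τ hτ
        simp only [mem_ofPred_eq, zt_re]
        have := mul_nonneg (by linarith [hτ.2] : (0 : ℝ) ≤ 1 - τ) hM0.le
        linarith)
    (fun τ _ => ⟨hcol c hcε, r0.eq c hcε l b3, r1.eq c hcε l b3⟩)
    (fun τ hτ s' hs' => by
      have h1 := hS (s + (1 - τ) * M) (by
        have := mul_nonneg (by linarith [hτ.2] : (0 : ℝ) ≤ 1 - τ) hM0.le
        linarith)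
      exact ⟨h1.1 s' hs', h1.2.1 s' hs'⟩)
    (fun τ hτ t' ht' => by
      have h1 := hS (s + (1 - τ) * M) (by
        have := mul_nonneg (by linarith [hτ.2] : (0 : ℝ) ≤ 1 - τ) hM0.le
        linarith)
      exact h1.2.2 t' ht')
  simp only [sub_zero, one_mul, sub_self, zero_mul, add_zero, hzt] at h
  exact hnot (h hlog1)

end Pool.Agent.Y961.LC
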